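import Pool.Agent.Helper14.FO.Defs2

/-! MP_190084_co, module SAD: finite matrix games. -/

set_option autoImplicit false

namespace Pool.Agent.Helper14.FO

open Finset

/-- the bilinear form of a matrix game -/
noncomputable def sad_f {I J : Type} [Fintype I] [Fintype J] (A : I → J → ℝ) (q : J → ℝ)
    (p : I → ℝ) : ℝ := ∑ i, p i * ∑ j, A i j * q j

theorem sad_left {I J : Type} [Fintype I] [Fintype J] (A : I → J → ℝ) (p : I → ℝ) :
    IsLinearMap ℝ (fun q : J → ℝ => sad_f A q p) := by
  constructor
  · intro x y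
    simp only [sad_f, Pi.add_apply, mul_add, Finset.sum_add_distrib]
  · intro c x
    simp only [sad_f, Pi.smul_apply, smul_eq_mul, Finset.mul_sum]
    refine Finset.sum_congr rfl fun i _ => Finset.sum_congr rfl fun j _ => by ring

theorem sad_right {I J : Type} [Fintype I] [Fintype J] (A : I → J → ℝ) (q : J → ℝ) :
    IsLinearMap ℝ (fun p : I → ℝ => sad_f A q p) := by
  constructor
  · intro x y
    simp only [sad_f, Pi.add_apply, add_mul, Finset.sum_add_distrib]
  · intro c x
    simp only [sad_f, Pi.smul_apply, smul_eq_mul, Finset.mul_sum]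
    refine Finset.sum_congr rfl fun i _ => Finset.sum_congr rfl fun j _ => by ring

theorem sad_c1 {I J : Type} [Fintype I] [Fintype J] (A : I → J → ℝ) (p : I → ℝ) :
    Continuous (fun q : J → ℝ => sad_f A q p) := by
  unfold sad_f
  fun_prop

theorem sad_c2 {I J : Type} [Fintype I] [Fintype J] (A : I → J → ℝ) (q : J → ℝ) :
    Continuous (fun p : I → ℝ => sad_f A q p) := by
  unfold sad_f
  fun_prop

theorem st_SAD : ST_SAD := by
  classical
  intro I J _ _ _ _ A
  have hX := convex_stdSimplex ℝ J
  have hY := convex_stdSimplex ℝ I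
  obtain ⟨i0⟩ := ‹Nonempty I›
  obtain ⟨j0⟩ := ‹Nonempty J›
  obtain ⟨q, hq, p, hp, hs⟩ := Sion.exists_isSaddlePointOn (X := stdSimplex ℝ J)
    (Y := stdSimplex ℝ I) (f := sad_f A) ⟨_, single_mem_stdSimplex ℝ j0⟩ hX
    (isCompact_stdSimplex ℝ J)
    (fun p _ => (sad_c1 A p).lowerSemicontinuous.lowerSemicontinuousOn _)
    (fun p _ => ((sad_left A p).mk' _).convexOn hX |>.quasiconvexOn)
    hY ⟨_, single_mem_stdSimplex ℝ i0⟩ (isCompact_stdSimplex ℝ I)
    (fun q _ => (sad_c2 A q).upperSemicontinuous.upperSemicontinuousOn _)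
    (fun q _ => ((sad_right A q).mk' _).concaveOn hY |>.quasiconcaveOn)
  refine ⟨p, q, sad_f A q p, hp.1, hp.2, hq.1, hq.2, ?_, ?_⟩
  · intro j
    have h := hs (Pi.single j 1) (single_mem_stdSimplex ℝ j) p hp
    refine h.trans (le_of_eq ?_)
    unfold sad_f
    refine Finset.sum_congr rfl fun i _ => ?_
    congr 1
    rw [Finset.sum_eq_single j]
    · rw [Pi.single_eq_same, mul_one]
    · intro k _ hk
      rw [Pi.single_eq_of_ne hk, mul_zero]
    · intro h
      exact absurd (Finset.mem_univ j) h
  · intro i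
    have h := hs q hq (Pi.single i 1) (single_mem_stdSimplex ℝ i)
    refine le_trans (le_of_eq ?_) h
    unfold sad_f
    rw [Finset.sum_eq_single i]
    · rw [Pi.single_eq_same, one_mul]
    · intro k _ hk
      rw [Pi.single_eq_of_ne hk, zero_mul]
    · intro h
      exact absurd (Finset.mem_univ i) h

end Pool.Agent.Helper14.FO
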